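import Pool.Agent.helper14.AV.Spec3

/-! # Project AV, row TRS: shortening the segments keeps alternating and compatible paths -/

set_option autoImplicit false

namespace Pool.Agent.helper14.AV

theorem TRS_num (a b q : ℝ) (h1 : 0 < q * b) (h2 : 0 < a * q) : 0 < a * b := by
  have h3 := mul_pos h1 h2
  by_contra hc
  have hc' : a * b ≤ 0 := not_lt.1 hc
  nlinarith [mul_nonneg (mul_self_nonneg q) (neg_nonneg.2 hc')]

theorem TRS_ss {ι : Type} (P Q : ι → ℝ × ℝ) (hNS : NSd P Q) (u a b : ι) (ha : u ≠ a) (hb : u ≠ b)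
    (ba bb : Bool)
    (h : 0 < D (P u) (Q u) (if ba then P a else Q a) * D (P u) (Q u) (if bb then P b else Q b)) :
    SS P Q u a b := by
  have h1 := hNS u a ha
  have h2 := hNS u b hb
  unfold SS
  have h3 : 0 < D (P u) (Q u) (P a) * D (P u) (Q u) (if bb then P b else Q b) := by
    cases ba
    · rw [if_neg (by decide : ¬ (false = true))] at h
      exact TRS_num _ _ _ h h1
    · rw [if_pos rfl] at h
      exact h
  cases bb
  · rw [if_neg (by decide : ¬ (false = true))] at h3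
    exact TRS_num _ _ (D (P u) (Q u) (Q b)) (by rw [mul_comm]; exact h2) h3
  · rw [if_pos rfl] at h3
    exact h3

theorem TRS_fn {ι : Type} (P Q : ι → ℝ × ℝ) (x : ι × Bool) :
    fn P Q x = if (!x.2) then P x.1 else Q x.1 := by
  unfold fn
  cases x.2 <;> rfl

theorem TRS_stmem {ι : Type} (P Q : ι → ℝ × ℝ) (x : ι × Bool) : st P Q x ∈ segment ℝ (P x.1) (Q x.1) := by
  unfold st
  cases x.2
  · exact right_mem_segment ℝ _ _
  · exact left_mem_segment ℝ _ _

theorem TRS_fnmem {ι : Type} (P Q : ι → ℝ × ℝ) (x : ι × Bool) : fn P Q x ∈ segment ℝ (P x.1) (Q x.1) := by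
  unfold fn
  cases x.2
  · exact left_mem_segment ℝ _ _
  · exact right_mem_segment ℝ _ _

theorem TRS_mem (p q : ℝ × ℝ) (α : ℝ) (h0 : 0 ≤ α) (h1 : α ≤ 1) : p + α • (q - p) ∈ segment ℝ p q := by
  refine ⟨1 - α, α, by linarith, h0, by ring, ?_⟩
  rw [sub_smul, one_smul, smul_sub]
  abel

theorem TRS_core (hCVS : CVS_stmt) (hSGN : SGN_stmt) (hSPB : SPB_stmt) (hCVB : CVB_stmt) (hSG1 : SG1_stmt)
    (hDS4 : DS4_stmt) (hDS3 : DS3_stmt) (hSPA : SPA_stmt)
    (n : ℕ) (P Q A B : Fin n → ℝ × ℝ)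
    (hci : ConvexIndependent ℝ (fun x : Fin n × Bool => if x.2 then P x.1 else Q x.1))
    (hdis : ∀ i j, i ≠ j → Disjoint (segment ℝ (P i) (Q i)) (segment ℝ (P j) (Q j)))
    (hsh : Short P Q A B) (k : ℕ) (x : ℕ → Fin n × Bool)
    (hinj : ∀ i j, i < k → j < k → i ≠ j → (x i).1 ≠ (x j).1) (v : ℕ → ℝ × ℝ)
    (hv : ∀ i < k, v (2 * i) = st P Q (x i) ∧ v (2 * i + 1) = fn P Q (x i))
    (hsp : SimplePath (2 * k - 1) v) (v' : ℕ → ℝ × ℝ)
    (hv' : ∀ i < k, v' (2 * i) = st A B (x i) ∧ v' (2 * i + 1) = fn A B (x i)) :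
    SimplePath (2 * k - 1) v' ∧
      ((∀ i, i + 1 < k → ∀ j,
        Disjoint (openSegment ℝ (v (2 * i + 1)) (v (2 * i + 2))) (segment ℝ (P j) (Q j))) →
      ∀ i, i + 1 < k → ∀ j,
        Disjoint (openSegment ℝ (v' (2 * i + 1)) (v' (2 * i + 2))) (segment ℝ (A j) (B j))) := by
  obtain ⟨hPQ, hcv⟩ := hCVS n P Q hci hdis
  have hNS : NSd P Q := fun i j hij => hSGN (P i) (Q i) (P j) (Q j) (hPQ i) (hcv i j hij)
  obtain ⟨hF1, hF2⟩ := hSPB (Fin n) P Q x k v hv hsp
  -- the sides
  have hSS : ∀ (y z : Fin n × Bool) (u : Fin n), y.1 ≠ u → z.1 ≠ u →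
      Disjoint (Eg P Q (y, z)) (segment ℝ (P u) (Q u)) → SS P Q u y.1 z.1 := by
    intro y z u hy hz hd
    unfold Eg at hd
    simp only at hd
    rw [TRS_fn] at hd
    unfold st at hd
    have h1 := hCVB (Fin n) P Q hci y.1 z.1 u hy hz (!y.2) z.2 hd
    exact TRS_ss P Q hNS u y.1 z.1 (Ne.symm hy) (Ne.symm hz) (!y.2) z.2 h1
  have hAB : ∀ u, A u ≠ B u := by
    intro u hAB
    obtain ⟨α, β, h0, hαβ, h1, hA, hB⟩ := hsh u
    rw [hA, hB] at hAB
    have h2 : (β - α) • (Q u - P u) = 0 := by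
      rw [sub_smul]
      exact sub_eq_zero.2 (add_left_cancel hAB).symm
    rcases smul_eq_zero.1 h2 with h3 | h3
    · linarith
    · exact hPQ u (sub_eq_zero.1 h3).symm
  have hsub : ∀ u, segment ℝ (A u) (B u) ⊆ segment ℝ (P u) (Q u) := by
    intro u
    obtain ⟨α, β, h0, hαβ, h1, hA, hB⟩ := hsh u
    apply (convex_segment _ _).segment_subset
    · rw [hA]
      exact TRS_mem _ _ _ h0 (by linarith)
    · rw [hB]
      exact TRS_mem _ _ _ (by linarith) h1
  have hdisAB : ∀ i j, i ≠ j → Disjoint (segment ℝ (A i) (B i)) (segment ℝ (A j) (B j)) :=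
    fun i j hij => (hdis i j hij).mono (hsub i) (hsub j)
  obtain ⟨hG2, hG3⟩ := hSG1 (Fin n) P Q A B hNS hsh
  refine ⟨?_, ?_⟩
  · apply hSPA (Fin n) A B x k v' hv' hAB
    · intro i j hij hj
      exact hdisAB _ _ (hinj i j (by omega) hj (by omega))
    · intro i hi j hj hji hji'
      have h1 : (x i).1 ≠ (x j).1 := hinj i j (by omega) hj (Ne.symm hji)
      have h2 : (x (i + 1)).1 ≠ (x j).1 := hinj (i + 1) j hi hj (Ne.symm hji')
      exact hG2 (x i) (x (i + 1)) (x j).1 h1 h2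
        (hSS (x i) (x (i + 1)) (x j).1 h1 h2 (hF1 i hi j hj hji hji'))
    · intro i hi
      exact hG3 (x i) (x (i + 1)) (hinj i (i + 1) (by omega) hi (by omega))
    · intro i j hij hj
      by_cases hj1 : j = i + 1
      · subst hj1
        have h12 := hinj i (i + 1) (by omega) (by omega) (by omega)
        have h23 := hinj (i + 1) (i + 1 + 1) (by omega) hj (by omega)
        have h13 := hinj i (i + 1 + 1) (by omega) hj (by omega)
        exact hDS3 (Fin n) P Q A B hNS hsh (x i) (x (i + 1)) (x (i + 1 + 1)) h12 h23 h13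
          (hSS (x i) (x (i + 1)) _ h13 h23
            (hF1 i (by omega) (i + 1 + 1) hj (by omega) (by omega)))
          (hSS (x (i + 1)) (x (i + 1 + 1)) _ (Ne.symm h12) (Ne.symm h13)
            (hF1 (i + 1) hj i (by omega) (by omega) (by omega)))
          (hF2 i (i + 1) (by omega) hj)
      · have a1 := hinj i (i + 1) (by omega) (by omega) (by omega)
        have a2 := hinj j (j + 1) (by omega) (by omega) (by omega)
        have a3 := hinj i j (by omega) (by omega) (by omega)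
        have a4 := hinj i (j + 1) (by omega) (by omega) (by omega)
        have a5 := hinj (i + 1) j (by omega) (by omega) (by omega)
        have a6 := hinj (i + 1) (j + 1) (by omega) (by omega) (by omega)
        exact hDS4 (Fin n) P Q A B hNS hsh (x i) (x (i + 1)) (x j) (x (j + 1)) a1 a2 a3 a4 a5 a6
          (hSS (x i) (x (i + 1)) _ a3 a5 (hF1 i (by omega) j (by omega) (by omega) (by omega)))
          (hSS (x i) (x (i + 1)) _ a4 a6 (hF1 i (by omega) (j + 1) (by omega) (by omega) (by omega)))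
          (hSS (x j) (x (j + 1)) _ (Ne.symm a3) (Ne.symm a4)
            (hF1 j (by omega) i (by omega) (by omega) (by omega)))
          (hSS (x j) (x (j + 1)) _ (Ne.symm a5) (Ne.symm a6)
            (hF1 j (by omega) (i + 1) (by omega) (by omega) (by omega)))
          (hF2 i j hij hj)
  · intro hopen i hi j
    have hv1 := hv i (by omega)
    have hv2 := hv (i + 1) hi
    have hv1' := hv' i (by omega)
    have hv2' := hv' (i + 1) hi
    rw [show 2 * i + 2 = 2 * (i + 1) by ring, hv1'.2, hv2'.1]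
    have hne := hinj i (i + 1) (by omega) hi (by omega)
    have hends : fn A B (x i) ≠ st A B (x (i + 1)) := by
      intro h
      have h1 := TRS_fnmem A B (x i)
      have h2 := TRS_stmem A B (x (i + 1))
      rw [h] at h1
      exact Set.disjoint_left.1 (hdisAB _ _ hne) h1 h2
    rw [Set.disjoint_left]
    intro z hz hzj
    have hzE : z ∈ Eg A B (x i, x (i + 1)) := openSegment_subset_segment ℝ _ _ hz
    by_cases hj1 : j = (x i).1
    · rw [hj1] at hzj
      have h1 := (hG3 (x i) (x (i + 1)) hne z hzE).1 hzj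
      rw [h1] at hz
      exact hends ((left_mem_openSegment_iff (𝕜 := ℝ)).1 hz)
    · by_cases hj2 : j = (x (i + 1)).1
      · rw [hj2] at hzj
        have h1 := (hG3 (x i) (x (i + 1)) hne z hzE).2 hzj
        rw [h1] at hz
        exact hends ((right_mem_openSegment_iff (𝕜 := ℝ)).1 hz)
      · have h1 := hopen i hi j
        rw [show 2 * i + 2 = 2 * (i + 1) by ring, hv1.2, hv2.1] at h1
        have h2 : Disjoint (Eg P Q (x i, x (i + 1))) (segment ℝ (P j) (Q j)) := by
          unfold Eg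
          simp only
          rw [← insert_endpoints_openSegment, Set.disjoint_insert_left, Set.disjoint_insert_left]
          refine ⟨?_, ?_, h1⟩
          · intro h3
            exact Set.disjoint_left.1 (hdis _ _ (Ne.symm hj1)) (TRS_fnmem P Q (x i)) h3
          · intro h3
            exact Set.disjoint_left.1 (hdis _ _ (Ne.symm hj2)) (TRS_stmem P Q (x (i + 1))) h3
        exact Set.disjoint_left.1 (hG2 (x i) (x (i + 1)) j (Ne.symm hj1) (Ne.symm hj2)
          (hSS (x i) (x (i + 1)) j (Ne.symm hj1) (Ne.symm hj2) h2)) hzE hzj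

theorem TRS_x {n : ℕ} (P Q : Fin n → ℝ × ℝ) (k : ℕ) (hk : 0 < k) (s : Fin k → Fin n)
    (v : ℕ → ℝ × ℝ)
    (h : ∀ i : Fin k, (v (2 * (i : ℕ)) = P (s i) ∧ v (2 * (i : ℕ) + 1) = Q (s i)) ∨
      (v (2 * (i : ℕ)) = Q (s i) ∧ v (2 * (i : ℕ) + 1) = P (s i))) :
    ∃ x : ℕ → Fin n × Bool, (∀ i : Fin k, (x i).1 = s i) ∧
      ∀ i < k, v (2 * i) = st P Q (x i) ∧ v (2 * i + 1) = fn P Q (x i) := by
  have hb : ∀ i : Fin k, ∃ b : Bool, v (2 * (i : ℕ)) = st P Q (s i, b) ∧
      v (2 * (i : ℕ) + 1) = fn P Q (s i, b) := by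
    intro i
    rcases h i with h1 | h1
    · exact ⟨true, h1⟩
    · exact ⟨false, h1⟩
  choose b hb using hb
  refine ⟨fun i => if h : i < k then (s ⟨i, h⟩, b ⟨i, h⟩) else (s ⟨0, hk⟩, true), ?_, ?_⟩
  · intro i
    simp only
    rw [dif_pos i.2]
  · intro i hi
    simp only
    rw [dif_pos hi]
    exact hb ⟨i, hi⟩

theorem TRS (hCVS : CVS_stmt) (hSGN : SGN_stmt) (hSPB : SPB_stmt) (hCVB : CVB_stmt) (hSG1 : SG1_stmt) (hDS4 : DS4_stmt) (hDS3 : DS3_stmt) (hSPA : SPA_stmt) : TRS_stmt := by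
  intro n P Q A B hci hdis hsh k
  rcases Nat.eq_zero_or_pos k with hk | hk
  · subst hk
    refine ⟨fun _ => ?_, fun _ => ?_⟩
    · exact ⟨fun i => i.elim0, fun _ => 0, fun i => i.elim0, fun i => i.elim0,
        fun i hi => absurd hi (by omega), fun i j _ hj => absurd hj (by omega)⟩
    · exact ⟨fun i => i.elim0, fun _ => 0, fun i => i.elim0, fun i => i.elim0,
        ⟨fun i hi => absurd hi (by omega), fun i j _ hj => absurd hj (by omega)⟩,
        fun i hi => absurd hi (by omega)⟩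
  · -- the new path
    have key : ∀ (s : Fin k → Fin n) (v : ℕ → ℝ × ℝ), Function.Injective s →
        (∀ i : Fin k, (v (2 * (i : ℕ)) = P (s i) ∧ v (2 * (i : ℕ) + 1) = Q (s i)) ∨
          (v (2 * (i : ℕ)) = Q (s i) ∧ v (2 * (i : ℕ) + 1) = P (s i))) →
        SimplePath (2 * k - 1) v →
        ∃ v' : ℕ → ℝ × ℝ,
          (∀ i : Fin k, (v' (2 * (i : ℕ)) = A (s i) ∧ v' (2 * (i : ℕ) + 1) = B (s i)) ∨
            (v' (2 * (i : ℕ)) = B (s i) ∧ v' (2 * (i : ℕ) + 1) = A (s i))) ∧
          SimplePath (2 * k - 1) v' ∧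
          ((∀ i, i + 1 < k → ∀ j,
            Disjoint (openSegment ℝ (v (2 * i + 1)) (v (2 * i + 2))) (segment ℝ (P j) (Q j))) →
          ∀ i, i + 1 < k → ∀ j,
            Disjoint (openSegment ℝ (v' (2 * i + 1)) (v' (2 * i + 2))) (segment ℝ (A j) (B j))) := by
      intro s v hs h hsp
      obtain ⟨x, hx, hv⟩ := TRS_x P Q k hk s v h
      have hinj : ∀ i j, i < k → j < k → i ≠ j → (x i).1 ≠ (x j).1 := by
        intro i j hi hj hij he
        have e1 := hx ⟨i, hi⟩
        have e2 := hx ⟨j, hj⟩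
        simp only at e1 e2
        rw [e1, e2] at he
        have := hs he
        rw [Fin.mk.injEq] at this
        exact hij this
      let v' : ℕ → ℝ × ℝ := fun m => if m % 2 = 0 then st A B (x (m / 2)) else fn A B (x (m / 2))
      have hv' : ∀ i < k, v' (2 * i) = st A B (x i) ∧ v' (2 * i + 1) = fn A B (x i) := by
        intro i _
        refine ⟨?_, ?_⟩
        · change (if (2 * i) % 2 = 0 then st A B (x (2 * i / 2)) else fn A B (x (2 * i / 2))) = _
          rw [if_pos (by omega), show 2 * i / 2 = i by omega]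
        · change (if (2 * i + 1) % 2 = 0 then st A B (x ((2 * i + 1) / 2))
            else fn A B (x ((2 * i + 1) / 2))) = _
          rw [if_neg (by omega), show (2 * i + 1) / 2 = i by omega]
      obtain ⟨h1, h2⟩ := TRS_core hCVS hSGN hSPB hCVB hSG1 hDS4 hDS3 hSPA n P Q A B hci hdis hsh k x
        hinj v hv hsp v' hv'
      refine ⟨v', ?_, h1, h2⟩
      intro i
      have h3 := hv' i i.2
      rw [h3.1, h3.2]
      unfold st fn
      rw [hx i]
      cases (x i).2
      · right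
        exact ⟨rfl, rfl⟩
      · left
        exact ⟨rfl, rfl⟩
    refine ⟨?_, ?_⟩
    · rintro ⟨s, v, hs, h, hsp⟩
      obtain ⟨v', h1, h2, -⟩ := key s v hs h hsp
      exact ⟨s, v', hs, h1, h2⟩
    · rintro ⟨s, v, hs, h, hsp, hop⟩
      obtain ⟨v', h1, h2, h3⟩ := key s v hs h hsp
      exact ⟨s, v', hs, h1, h2, h3 hop⟩

end Pool.Agent.helper14.AV
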